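import Mathlib

/-!
# Curves over number fields, their Jacobians and their small points: definitions
-/

set_option autoImplicit false

open CategoryTheory

namespace Pool.Agent.Zk51.SP

universe v u

/-- The curves over number fields, their points and their Jacobians. `𝒜` is the category of the
abelian varieties over the algebraic closure of `ℚ`. The pairs `(K, S)` of a number field and a
finite set of finite places are coded by natural numbers. -/
structure Curves (𝒜 : Type u) [Category.{v} 𝒜] [Preadditive 𝒜] where
  /-- smooth projective geometrically connected curves over number fields -/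
  V : Type
  /-- `Over b X`: `X` is a curve over `K` with semi-stable reduction over the ring of integers of `K`
  and with good reduction at the places outside `S`, where `b` is the code of `(K, S)` -/
  Over : ℕ → V → Prop
  genus : V → ℕ
  /-- the projective lines -/
  Line : V → Prop
  /-- the curves over `K` with a morphism of prime degree to the projective line over `K` which is a
  cyclic covering over the algebraic closure of `K` -/
  Cyclic : V → Prop
  /-- the points over the algebraic closure -/
  Pt : V → Type
  /-- the stable Arakelov height `h(x)` -/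
  h : ∀ X : V, Pt X → ℝ
  /-- the nonconstant morphisms (over the algebraic closure) -/
  Mor : V → V → Type
  deg : ∀ {X Y : V}, Mor X Y → ℕ
  /-- the Jacobian -/
  jac : V → 𝒜
  /-- `f^*` -/
  pull : ∀ {X Y : V}, Mor X Y → (jac Y ⟶ jac X)
  /-- `f_*` -/
  push : ∀ {X Y : V}, Mor X Y → (jac X ⟶ jac Y)
  /-- the faithful actions of `G` on `X` over the field of definition of `X` -/
  Act : V → (G : Type) → [Group G] → Type
  /-- the action on the Jacobian -/
  act : ∀ {X : V} {G : Type} [Group G], Act X G → G →* End (jac X)
  /-- the quotient `X / H` -/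
  quo : ∀ {X : V} {G : Type} [Group G], Act X G → Subgroup G → V
  /-- the morphism `X → X / H` -/
  proj : ∀ {X : V} {G : Type} [Group G] (α : Act X G) (H : Subgroup G), Mor X (quo α H)
  /-- the dimension of abelian varieties -/
  dim : 𝒜 → ℕ
  /-- the stable Faltings height of abelian varieties -/
  hF : 𝒜 → ℝ
  /-- `Basic b m A`: `A` is an abelian variety of dimension at most `m` of one of the types for which
  an effective bound for the Faltings height is known, over an extension of `K` of degree at most
  `m` which is unramified outside `S` and the places above the primes up to `m`, with good reduction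
  outside these places: zero, elliptic curves, Jacobians of curves in `Cyclic`, abelian varieties
  over `ℚ` of product `GL_2`-type -/
  Basic : ℕ → ℕ → 𝒜 → Prop

variable {𝒜 : Type u} [Category.{v} 𝒜] [Preadditive 𝒜]

/-- `P` is the product of the objects `B j`. -/
structure IsProduct {ι : Type} [Fintype ι] (B : ι → 𝒜) (P : 𝒜) (i : ∀ j, B j ⟶ P)
    (p : ∀ j, P ⟶ B j) : Prop where
  one : ∀ j, i j ≫ p j = 𝟙 (B j)
  zero : ∀ j k, j ≠ k → i j ≫ p k = 0
  total : ∑ j, p j ≫ i j = 𝟙 P

namespace Curves

variable (D : Curves 𝒜)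

/-- Facts on abelian varieties and their heights: torsion-free groups of homomorphisms, images of
endomorphisms, heights and dimensions of products and isogenous abelian varieties, and the lower
bound of Bost. -/
structure IsHeight : Prop where
  torsion : ∀ (A B : 𝒜) (f : A ⟶ B) (n : ℕ), 1 ≤ n → n • f = 0 → f = 0
  image : ∀ (B : 𝒜) (w : B ⟶ B) (n : ℕ), 1 ≤ n → w ≫ w = n • w →
    ∃ (A : 𝒜) (p : B ⟶ A) (i : A ⟶ B), p ≫ i = w ∧ i ≫ p = n • 𝟙 A
  product : ∀ (ι : Type) [Fintype ι] (B : ι → 𝒜), ∃ (P : 𝒜) (i : ∀ j, B j ⟶ P) (p : ∀ j, P ⟶ B j),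
    IsProduct B P i p ∧ D.hF P = ∑ j, D.hF (B j) ∧ D.dim P = ∑ j, D.dim (B j)
  isogeny : ∀ (A B : 𝒜) (f : A ⟶ B) (g : B ⟶ A) (n : ℕ), 1 ≤ n → f ≫ g = n • 𝟙 A →
    g ≫ f = n • 𝟙 B → D.dim A = D.dim B ∧ D.hF A ≤ D.hF B + D.dim A * Real.log n
  bost : ∀ A : 𝒜, -(3 * D.dim A : ℝ) ≤ D.hF A

/-- The quotient `X / H` is of genus at most one or a cyclic covering of prime degree of the
projective line. -/
def Good {X : D.V} {G : Type} [Group G] (α : D.Act X G) (H : Subgroup G) : Prop :=
  D.genus (D.quo α H) ≤ 1 ∨ D.Cyclic (D.quo α H)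

open Classical in
/-- The norm endomorphism of `H`, the sum of the endomorphisms given by the elements of `H`. -/
noncomputable def norm {X : D.V} {G : Type} [Group G] [Fintype G] (α : D.Act X G)
    (H : Subgroup G) : D.jac X ⟶ D.jac X := ∑ g : G with g ∈ H, (D.act α g : D.jac X ⟶ D.jac X)

/-- Facts on curves, their coverings and quotients: the projection formula, the formula of Hurwitz and his
bound for the number of automorphisms, good reduction of quotients, the projective line. -/
structure IsGeometry : Prop where
  pull_push : ∀ {X Y : D.V} (f : D.Mor X Y), D.pull f ≫ D.push f = D.deg f • 𝟙 (D.jac Y)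
  deg_pos : ∀ {X Y : D.V} (f : D.Mor X Y), 0 < D.deg f
  deg_le : ∀ {X Y : D.V} (f : D.Mor X Y), 2 ≤ D.genus Y →
    D.deg f * (D.genus Y - 1) ≤ D.genus X - 1
  push_pull : ∀ {X : D.V} {G : Type} [Group G] [Fintype G] (α : D.Act X G) (H : Subgroup G),
    D.push (D.proj α H) ≫ D.pull (D.proj α H) = D.norm α H
  card_le : ∀ {X : D.V} {G : Type} [Group G] [Fintype G], D.Act X G → 2 ≤ D.genus X →
    Fintype.card G ≤ 84 * (D.genus X - 1)
  line : ∀ X : D.V, D.Line X → D.genus X = 0
  rational : ∀ X : D.V, D.genus X = 0 → 𝟙 (D.jac X) = 0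
  cyclic : ∀ {X : D.V} {G : Type} [Group G] (α : D.Act X G) (H : Subgroup G), D.Line (D.quo α ⊤) →
    H.Normal → H.index.Prime → D.Cyclic (D.quo α H)
  conj : ∀ {X : D.V} {G : Type} [Group G] (α : D.Act X G) (H : Subgroup G) (g : G),
    D.Good α H → D.Good α (H.map (MulAut.conj g).toMonoidHom)
  basic : ∀ {X : D.V} {G : Type} [Group G] (α : D.Act X G) (H : Subgroup G) (b m : ℕ),
    D.Over b X → D.genus X ≤ m → D.Good α H → D.Basic b m (D.jac (D.quo α H))

/-- The Faltings height of the Jacobian gives small points (the formula of Noether, the lower bound of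
Wilms for the delta invariant, the theorem of Zhang on successive minima): infinitely many points
have height at most `6 max(h_F, 0) + 19`. -/
def HasZhang : Prop :=
  ∀ X : D.V, 2 ≤ D.genus X → {x : D.Pt X | D.h X x ≤ 6 * max (D.hF (D.jac X)) 0 + 19}.Infinite

/-- The known effective theorems of Shafarevich type: the Faltings heights of the basic abelian
varieties are bounded by a computable function of `(K, S)` and `m`. -/
structure IsShafarevich : Prop where
  mono : ∀ (b m n : ℕ) (A : 𝒜), m ≤ n → D.Basic b m A → D.Basic b n A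
  dim_le : ∀ (b m : ℕ) (A : 𝒜), D.Basic b m A → D.dim A ≤ m
  bound : ∃ B : ℕ × ℕ → ℕ, Computable B ∧
    ∀ (b m : ℕ) (A : 𝒜), D.Basic b m A → D.hF A ≤ B (b, m)

/-- All facts which are used. -/
structure IsArakelov : Prop where
  height : D.IsHeight
  geometry : D.IsGeometry
  zhang : D.HasZhang
  shafarevich : D.IsShafarevich

/-- `X` has infinitely many points of height at most `c`. -/
def HasSmallPoints (X : D.V) (c : ℕ) : Prop := {x : D.Pt X | D.h X x ≤ c}.Infinite

/-- `A` is, up to a factor `n ≤ m`, a direct summand of a product of at most `m` basic abelian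
varieties. -/
def IsDominated (b m : ℕ) (A : 𝒜) : Prop :=
  ∃ (s n : ℕ) (B : Fin s → 𝒜) (u : ∀ j, A ⟶ B j) (v : ∀ j, B j ⟶ A), s ≤ m ∧ 1 ≤ n ∧ n ≤ m ∧
    (∀ j, D.Basic b m (B j)) ∧ ∑ j, u j ≫ v j = n • 𝟙 A

/-- The Jacobian of `X` is generated by the images of the Jacobians of the good quotients `X / H`: a
homomorphism which is zero on all of them is zero. -/
def Generated {X : D.V} {G : Type} [Group G] (α : D.Act X G) : Prop :=
  ∀ (A : 𝒜) (f : D.jac X ⟶ A), (∀ H, D.Good α H → D.pull (D.proj α H) ≫ f = 0) → f = 0

/-- Every irreducible rational representation of `G` except the trivial one has a nonzero vector which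
is fixed by some good subgroup. Equivalently, every torsion-free abelian group `V ≠ 0` with an action
of `G` has a nonzero element fixed by a good subgroup or by `G`. -/
def SeesAll {X : D.V} {G : Type} [Group G] (α : D.Act X G) : Prop :=
  ∀ (V : Type v) [AddCommGroup V] (ρ : G →* AddMonoid.End V),
    (∀ (n : ℕ) (x : V), 1 ≤ n → n • x = 0 → x = 0) → (∃ x : V, x ≠ 0) →
      ∃ H : Subgroup G, (D.Good α H ∨ H = ⊤) ∧ ∃ x : V, x ≠ 0 ∧ ∀ g ∈ H, ρ g x = x

end Curves

open Classical in
/-- A relation between subgroups of `G`: `∑ n_j N(H_j) = N + t N(G)` in the group ring, where `N(H)`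
is the sum of the elements of `H`. -/
def IsRelation {G : Type} [Group G] {ι : Type} [Fintype ι] (H : ι → Subgroup G) (n : ι → ℤ)
    (N : ℕ) (t : ℤ) : Prop :=
  ∑ j, n j = N + t ∧ ∀ g : G, g ≠ 1 → ∑ j with g ∈ H j, n j = t

end Pool.Agent.Zk51.SP
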