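import Pool.Agent.Zk51.SP.Main

/-!
# Relations between the subgroups of elementary abelian groups
-/

set_option autoImplicit false

open CategoryTheory Module

namespace Pool.Agent.Zk51.SP

section Count

variable {p : ℕ} [Fact p.Prime] {V : Type} [AddCommGroup V] [Module (ZMod p) V] [Finite V]

instance : Module.Finite (ZMod p) V := Module.Finite.of_finite

lemma exists_dual {x : V} (hx : x ≠ 0) : ∃ χ : Dual (ZMod p) V, χ x ≠ 0 := by
  by_contra h
  push Not at h
  exact hx ((forall_dual_apply_eq_zero_iff (ZMod p) x).1 h)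

instance : Finite (Dual (ZMod p) V) := Module.finite_of_finite (ZMod p)

lemma card_dual : Nat.card (Dual (ZMod p) V) = Nat.card V := by
  have h1 := Module.natCard_eq_pow_finrank (K := ZMod p) (V := V)
  have h2 := Module.natCard_eq_pow_finrank (K := ZMod p) (V := Dual (ZMod p) V)
  rw [h1, h2, Subspace.dual_finrank_eq]

lemma range_top {W : Type} [AddCommGroup W] [Module (ZMod p) W] (φ : W →ₗ[ZMod p] ZMod p)
    (hφ : φ ≠ 0) : LinearMap.range φ = ⊤ := by
  have h1 : Function.Surjective φ := LinearMap.surjective hφ
  exact LinearMap.range_eq_top.2 h1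

lemma card_ker {W : Type} [AddCommGroup W] [Module (ZMod p) W] [Finite W]
    (φ : W →ₗ[ZMod p] ZMod p) (hφ : φ ≠ 0) : Nat.card (LinearMap.ker φ) * p = Nat.card W := by
  have h1 := Submodule.card_eq_card_quotient_mul_card (LinearMap.ker φ)
  have h2 : Nat.card (W ⧸ LinearMap.ker φ) = p := by
    rw [Nat.card_congr (φ.quotKerEquivOfSurjective
      (LinearMap.range_eq_top.1 (range_top φ hφ))).toEquiv, Nat.card_zmod]
  rw [h1, h2]

/-- The number of linear forms which vanish at a point. -/
lemma card_forms {x : V} (hx : x ≠ 0) :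
    Nat.card {χ : Dual (ZMod p) V // χ x = 0} * p = Nat.card V := by
  obtain ⟨χ, hχ⟩ := exists_dual (p := p) hx
  have h1 := card_ker (Dual.eval (ZMod p) V x) (fun h => hχ (by
    have := congrArg (fun f : Dual (ZMod p) (Dual (ZMod p) V) => f χ) h
    exact this))
  rw [card_dual] at h1
  exact h1

end Count

section Group

variable {G : Type} [CommGroup G] {p : ℕ} [Fact p.Prime] [Module (ZMod p) (Additive G)]

/-- The kernel of a linear form as a subgroup of the multiplicative group `G`. -/
def kerG (χ : Dual (ZMod p) (Additive G)) : Subgroup G where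
  carrier := {g | χ (Additive.ofMul g) = 0}
  mul_mem' := by
    intro a b ha hb
    have ha' : χ (Additive.ofMul a) = 0 := ha
    have hb' : χ (Additive.ofMul b) = 0 := hb
    change χ (Additive.ofMul (a * b)) = 0
    rw [ofMul_mul, map_add, ha', hb', add_zero]
  one_mem' := by
    change χ (Additive.ofMul 1) = 0
    rw [ofMul_one, map_zero]
  inv_mem' := by
    intro a ha
    have ha' : χ (Additive.ofMul a) = 0 := ha
    change χ (Additive.ofMul a⁻¹) = 0
    rw [ofMul_inv, map_neg, ha', neg_zero]

lemma mem_kerG {χ : Dual (ZMod p) (Additive G)} {g : G} :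
    g ∈ kerG χ ↔ χ (Additive.ofMul g) = 0 := Iff.rfl

lemma index_kerG [Finite G] {χ : Dual (ZMod p) (Additive G)} (hχ : χ ≠ 0) :
    (kerG χ).index = p := by
  have h1 := card_ker χ hχ
  have h2 : Nat.card (LinearMap.ker χ) = Nat.card (kerG χ) := rfl
  have h3 := (kerG χ).card_mul_index
  have h4 : Nat.card (Additive G) = Nat.card G := rfl
  rw [h2, h4, ← h3] at h1
  exact (Nat.eq_of_mul_eq_mul_left Nat.card_pos h1).symm

end Group

open Classical in
theorem exists_relation_aux {G : Type} [CommGroup G] [Fintype G] [Nontrivial G] {p : ℕ}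
    [hp' : Fact p.Prime] [Module (ZMod p) (Additive G)] [Finite (Additive G)] :
    ∃ (ι : Type) (_ : Fintype ι) (H : ι → Subgroup G) (N : ℕ) (t : ℤ),
      Fintype.card ι ≤ Fintype.card G ∧ 1 ≤ N ∧ N ≤ Fintype.card G ∧ (∀ j, (H j).index = p) ∧
        IsRelation H (fun _ => 1) N t := by
  have hp := hp'.out
  let _ : Fintype (Dual (ZMod p) (Additive G)) := Fintype.ofFinite (Dual (ZMod p) (Additive G))
  have hcard : Fintype.card (Dual (ZMod p) (Additive G)) = Fintype.card G := by
    rw [← Nat.card_eq_fintype_card, ← Nat.card_eq_fintype_card, card_dual]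
    rfl
  obtain ⟨g₀, hg₀⟩ := exists_ne (1 : G)
  have key : ∀ g : G, g ≠ 1 →
      Fintype.card {χ : Dual (ZMod p) (Additive G) // χ (Additive.ofMul g) = 0} * p =
        Fintype.card G := by
    intro g hg
    have h1 := card_forms (p := p) (V := Additive G) (x := Additive.ofMul g) (by
      intro h
      exact hg (Additive.ofMul.injective h))
    rw [Nat.card_eq_fintype_card] at h1
    rw [h1]
    exact Nat.card_eq_fintype_card (α := G)
  set q : ℕ := Fintype.card {χ : Dual (ZMod p) (Additive G) // χ (Additive.ofMul g₀) = 0} with hq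
  have hq0 : q * p = Fintype.card G := key g₀ hg₀
  have hqpos : 1 ≤ q := by
    rcases Nat.eq_zero_or_pos q with h | h
    · rw [h, zero_mul] at hq0
      exact absurd hq0.symm Fintype.card_ne_zero
    · exact h
  have hp2 := hp.two_le
  have hlt : q < Fintype.card G := by nlinarith
  refine ⟨{χ : Dual (ZMod p) (Additive G) // χ ≠ 0}, inferInstance, fun χ => kerG χ.1,
    Fintype.card G - q, (q : ℤ) - 1, ?_, by omega, by omega, fun χ => index_kerG χ.2, ?_, ?_⟩
  · rw [← hcard]
    exact Fintype.card_subtype_le _
  · have h1 : Fintype.card {χ : Dual (ZMod p) (Additive G) // χ ≠ 0} = Fintype.card G - 1 := by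
      rw [Fintype.card_subtype_compl, hcard]
      congr 1
    rw [Finset.sum_const, Finset.card_univ, h1]
    have h2 : 1 ≤ Fintype.card G := by omega
    rw [nsmul_eq_mul, mul_one, Nat.cast_sub h2, Nat.cast_sub hlt.le]
    push_cast
    ring
  · intro g hg
    have h1 : q = Fintype.card {χ : Dual (ZMod p) (Additive G) // χ (Additive.ofMul g) = 0} := by
      have := key g hg
      rw [← hq0] at this
      exact (Nat.eq_of_mul_eq_mul_right hp.pos this).symm
    have h2 : (Finset.univ.filter fun χ : {χ : Dual (ZMod p) (Additive G) // χ ≠ 0} =>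
        g ∈ kerG χ.1).card + 1 = q := by
      rw [h1, Fintype.card_subtype]
      have h3 : (Finset.univ.filter fun χ : Dual (ZMod p) (Additive G) =>
          χ (Additive.ofMul g) = 0) = insert 0 ((Finset.univ.filter
            fun χ : {χ : Dual (ZMod p) (Additive G) // χ ≠ 0} => g ∈ kerG χ.1).map
              (Function.Embedding.subtype _)) := by
        ext χ
        simp only [Finset.mem_filter, Finset.mem_univ, true_and, Finset.mem_insert,
          Finset.mem_map, Function.Embedding.subtype_apply, Subtype.exists, mem_kerG]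
        constructor
        · intro h
          by_cases h0 : χ = 0
          · exact Or.inl h0
          · exact Or.inr ⟨χ, h0, h, rfl⟩
        · rintro (h | ⟨χ', h0, h, rfl⟩)
          · rw [h, LinearMap.zero_apply]
          · exact h
      rw [h3, Finset.card_insert_of_notMem, Finset.card_map]
      simp
    rw [Finset.sum_const]
    have h4 : ((Finset.univ.filter fun χ : {χ : Dual (ZMod p) (Additive G) // χ ≠ 0} =>
        g ∈ kerG χ.1).card : ℤ) = q - 1 := by
      have : ((Finset.univ.filter fun χ : {χ : Dual (ZMod p) (Additive G) // χ ≠ 0} =>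
        g ∈ kerG χ.1).card : ℤ) + 1 = q := by exact_mod_cast h2
      linarith
    simpa using h4

/-- The relation between all subgroups of index `p` of an elementary abelian `p`-group. -/
theorem exists_relation {G : Type} [CommGroup G] [Fintype G] [Nontrivial G] {p : ℕ}
    (hp : p.Prime) (hG : ∀ g : G, g ^ p = 1) :
    ∃ (ι : Type) (_ : Fintype ι) (H : ι → Subgroup G) (N : ℕ) (t : ℤ),
      Fintype.card ι ≤ Fintype.card G ∧ 1 ≤ N ∧ N ≤ Fintype.card G ∧ (∀ j, (H j).index = p) ∧
        IsRelation H (fun _ => 1) N t := by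
  have _ : Fact p.Prime := ⟨hp⟩
  let _ : Module (ZMod p) (Additive G) := AddCommGroup.zmodModule (n := p) fun x => by
    have := hG (Additive.toMul x)
    exact congrArg Additive.ofMul this
  have _ : Finite (Additive G) := inferInstanceAs (Finite G)
  exact exists_relation_aux (p := p)

end Pool.Agent.Zk51.SP
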