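import Pool.Agent.Zk51.SP.Poly

/-!
# Sums of norm elements in integral group rings
-/

set_option autoImplicit false

open Polynomial Matrix

namespace Pool.Agent.Zk51.SP

variable {G : Type} [Group G] [Fintype G] [DecidableEq G]

/-- The regular representation by matrices. -/
def reg : G →* Matrix G G ℤ where
  toFun g := Matrix.of fun h k => if h = g * k then 1 else 0
  map_one' := by
    ext h k
    simp [Matrix.one_apply]
  map_mul' a b := by
    ext h k
    simp [Matrix.mul_apply, mul_assoc]

lemma reg_apply (g h k : G) : reg g h k = if h = g * k then 1 else 0 := rfl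

lemma reg_transpose (g : G) : (reg g)ᵀ = reg g⁻¹ := by
  ext h k
  rw [Matrix.transpose_apply, reg_apply, reg_apply]
  have : k = g * h ↔ h = g⁻¹ * k := by
    constructor
    · intro e
      rw [e, inv_mul_cancel_left]
    · intro e
      rw [e, mul_inv_cancel_left]
  simp only [this]

/-- The matrices of the elements of the group ring. -/
noncomputable def regM : MonoidAlgebra ℤ G →ₐ[ℤ] Matrix G G ℤ :=
  MonoidAlgebra.lift ℤ (Matrix G G ℤ) G reg

lemma regM_single (g : G) : regM (MonoidAlgebra.single g 1) = reg g := by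
  simp [regM]

lemma regM_apply (x : MonoidAlgebra ℤ G) (g : G) : regM x g 1 = x.coeff g := by
  induction x using MonoidAlgebra.induction_on with
  | of a =>
    rw [MonoidAlgebra.of_apply, regM_single, reg_apply, mul_one]
    rw [MonoidAlgebra.coeff_single, Finsupp.single_apply]
    simp only [eq_comm]
  | add a b ha hb => rw [map_add, Matrix.add_apply, ha, hb]; rfl
  | smul r a ha => rw [map_smul, Matrix.smul_apply, ha]; rfl

lemma regM_injective : Function.Injective (regM (G := G)) := by
  intro x y h
  ext g
  rw [← regM_apply, ← regM_apply, h]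

open Classical in
/-- The sum of the elements of a subgroup. -/
noncomputable def nrm (H : Subgroup G) : MonoidAlgebra ℤ G :=
  ∑ g : G with g ∈ H, MonoidAlgebra.single g 1

open Classical in
lemma regM_nrm (H : Subgroup G) : regM (nrm H) = ∑ g : G with g ∈ H, reg g := by
  unfold nrm
  rw [map_sum]
  exact Finset.sum_congr rfl fun g _ => regM_single g

open Classical in
lemma nrm_transpose (H : Subgroup G) : (regM (nrm H))ᵀ = regM (nrm H) := by
  rw [regM_nrm, Matrix.transpose_sum]
  simp only [reg_transpose]
  refine Finset.sum_bij' (fun g _ => g⁻¹) (fun g _ => g⁻¹) ?_ ?_ ?_ ?_ ?_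
  · intro g hg
    simpa using hg
  · intro g hg
    simpa using hg
  · intro g _
    exact inv_inv g
  · intro g _
    exact inv_inv g
  · intro g _
    rfl

open Classical in
lemma nrm_sq (H : Subgroup G) :
    regM (nrm H) * regM (nrm H) = (Finset.univ.filter fun g : G => g ∈ H).card • regM (nrm H) := by
  have h1 : ∀ g ∈ H, reg g * regM (nrm H) = regM (nrm H) := by
    intro g hg
    rw [regM_nrm, Finset.mul_sum]
    refine Finset.sum_bij' (fun k _ => g * k) (fun k _ => g⁻¹ * k) ?_ ?_ ?_ ?_ ?_
    · intro k hk
      simp only [Finset.mem_filter, Finset.mem_univ, true_and] at hk ⊢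
      exact H.mul_mem hg hk
    · intro k hk
      simp only [Finset.mem_filter, Finset.mem_univ, true_and] at hk ⊢
      exact H.mul_mem (H.inv_mem hg) hk
    · intro k _
      exact inv_mul_cancel_left g k
    · intro k _
      exact mul_inv_cancel_left g k
    · intro k _
      exact (map_mul reg g k).symm
  have h2 : regM (nrm H) * regM (nrm H) = ∑ g : G with g ∈ H, reg g * regM (nrm H) := by
    rw [← Finset.sum_mul, ← regM_nrm]
  rw [h2, Finset.sum_congr rfl fun g hg => h1 g (Finset.mem_filter.1 hg).2, Finset.sum_const]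

open Classical in
lemma nrm_entry (H : Subgroup G) (g h : G) :
    regM (nrm H) g h = if g * h⁻¹ ∈ H then 1 else 0 := by
  rw [regM_nrm, Matrix.sum_apply]
  simp only [reg_apply]
  have h1 : ∀ x : G, (g = x * h) ↔ (x = g * h⁻¹) := fun x =>
    ⟨fun e => by rw [e, mul_inv_cancel_right], fun e => by rw [e, inv_mul_cancel_right]⟩
  simp only [h1]
  rw [Finset.sum_ite_eq']
  simp

open Classical in
/-- The key fact: a relation with a bounded constant term. -/
theorem ring_relation (s : Finset (Subgroup G)) (hs : s.Nonempty) :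
    ∃ (N : ℕ) (Q : ℤ[X]), 1 ≤ N ∧
      N ≤ (2 * (s.card * Fintype.card G)) ^ Fintype.card G ∧
      ∀ H ∈ s, aeval (∑ H ∈ s, nrm H) (C (N : ℤ) - X * Q) * nrm H = 0 := by
  set A : Matrix G G ℤ := ∑ H ∈ s, regM (nrm H) with hA
  have hAt : Aᵀ = A := by
    rw [hA, Matrix.transpose_sum]
    exact Finset.sum_congr rfl fun H _ => nrm_transpose H
  have hrow : ∀ g, ∑ h, |A g h| ≤ ((s.card * Fintype.card G : ℕ) : ℤ) := by
    intro g
    have h1 : ∀ h, |A g h| ≤ (s.card : ℤ) := by
      intro h
      rw [hA, Matrix.sum_apply]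
      refine (Finset.abs_sum_le_sum_abs _ _).trans ?_
      calc ∑ H ∈ s, |regM (nrm H) g h| ≤ ∑ _H ∈ s, (1 : ℤ) := Finset.sum_le_sum fun H _ => by
            rw [nrm_entry]
            split_ifs <;> simp
        _ = s.card := by simp
    calc ∑ h, |A g h| ≤ ∑ _h : G, (s.card : ℤ) := Finset.sum_le_sum fun h _ => h1 h
      _ = ((s.card * Fintype.card G : ℕ) : ℤ) := by
        rw [Finset.sum_const, Finset.card_univ, nsmul_eq_mul]
        push_cast
        ring
  have hR : 1 ≤ s.card * Fintype.card G := Nat.mul_pos hs.card_pos Fintype.card_pos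
  obtain ⟨N, Q, h1, h2, h3⟩ := exists_poly A hAt hR hrow
  refine ⟨N, Q, h1, h2, fun H hH => ?_⟩
  have h4 := mul_eq_zero_of_sum s (fun H => regM (nrm H))
    (fun H => (Finset.univ.filter fun g : G => g ∈ H).card)
    (fun H => Finset.card_pos.2 ⟨1, by simp [H.one_mem]⟩) nrm_transpose nrm_sq h3 H hH
  have h5 : (aeval A (C (N : ℤ) - X * Q))ᵀ = aeval A (C (N : ℤ) - X * Q) := by
    have key : ∀ P : ℤ[X], (aeval A P)ᵀ = aeval A P := by
      intro P
      induction P using Polynomial.induction_on' with
      | add p q hp hq => rw [map_add, Matrix.transpose_add, hp, hq]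
      | monomial k a =>
        rw [aeval_monomial, Matrix.transpose_mul, Matrix.transpose_pow, hAt]
        have h6 : (algebraMap ℤ (Matrix G G ℤ) a)ᵀ = algebraMap ℤ (Matrix G G ℤ) a := by
          rw [Matrix.algebraMap_eq_diagonal, Matrix.diagonal_transpose]
        rw [h6]
        exact (Algebra.commutes _ _).symm
    exact key _
  have h6 : aeval A (C (N : ℤ) - X * Q) * regM (nrm H) = 0 := by
    have := congrArg Matrix.transpose h4
    rw [Matrix.transpose_mul, h5, nrm_transpose, Matrix.transpose_zero] at this
    exact this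
  apply regM_injective
  rw [map_mul, map_zero, ← Polynomial.aeval_algHom_apply, map_sum]
  exact h6

end Pool.Agent.Zk51.SP
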