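import Pool.Agent.Zk51.SP.Elem
import Pool.Agent.Zk51.SP.Ring

/-!
# Small points on curves with a group action
-/

set_option autoImplicit false

open CategoryTheory

namespace Pool.Agent.Zk51.SP

universe v u

variable {𝒜 : Type u} [Category.{v} 𝒜] [Preadditive 𝒜]

namespace Curves

variable {D : Curves 𝒜}

/-- The norm of `G` is zero if `X / G` has genus zero. -/
lemma norm_top (h : D.IsArakelov) {X : D.V} {G : Type} [Group G] [Fintype G] (α : D.Act X G)
    (h0 : D.genus (D.quo α ⊤) = 0) : D.norm α ⊤ = 0 := by
  rw [← h.geometry.push_pull α ⊤]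
  have h3 := h.geometry.rational _ h0
  have h4 : D.push (D.proj α ⊤) = 0 := by
    rw [← Category.comp_id (D.push (D.proj α ⊤)), h3, Limits.comp_zero]
  rw [h4, Limits.zero_comp]

/-- A relation between good subgroups. -/
theorem generated_of_relation (h : D.IsArakelov) {X : D.V} {G : Type} [Group G] [Fintype G]
    (α : D.Act X G) (h0 : D.genus (D.quo α ⊤) = 0) {ι : Type} [Fintype ι] {H : ι → Subgroup G}
    {n : ι → ℤ} {N : ℕ} {t : ℤ} (hN : 1 ≤ N) (hr : IsRelation H n N t)
    (hg : ∀ j, D.Good α (H j)) : D.Generated α := by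
  intro A f hf
  have h1 := relation α hr
  rw [norm_top h α h0, smul_zero, add_zero] at h1
  refine h.height.torsion _ _ _ _ hN ?_
  have h2 : (N • 𝟙 (D.jac X)) ≫ f = 0 := by
    rw [← h1, Preadditive.sum_comp]
    refine Finset.sum_eq_zero fun j _ => ?_
    rw [Preadditive.zsmul_comp, ← h.geometry.push_pull, Category.assoc, hf _ (hg j),
      Limits.comp_zero, smul_zero]
  rw [Preadditive.nsmul_comp, Category.id_comp] at h2
  exact h2

/-- Elementary abelian coverings of the projective line. -/
theorem generated_elementary (h : D.IsArakelov) {X : D.V} {G : Type} [CommGroup G] [Fintype G]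
    {p : ℕ} (hp : p.Prime) (hG : ∀ g : G, g ^ p = 1) (α : D.Act X G)
    (hL : D.Line (D.quo α ⊤)) : D.Generated α := by
  have h0 := h.geometry.line _ hL
  cases subsingleton_or_nontrivial G with
  | inl _ =>
    have h1 : D.norm α ⊤ = 𝟙 (D.jac X) := by
      classical
      unfold norm
      rw [Finset.sum_eq_single (1 : G)]
      · rw [map_one]
        rfl
      · intro g _ hg
        exact absurd (Subsingleton.elim g 1) hg
      · intro hn
        exact absurd (by simp) hn
    intro A f _
    rw [← Category.id_comp f, ← h1, norm_top h α h0, Limits.zero_comp]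
  | inr _ =>
    obtain ⟨ι, _, H, N, t, _, h2, _, h4, h5⟩ := exists_relation hp hG
    refine generated_of_relation h α h0 h2 h5 fun j =>
      Or.inr (h.geometry.cyclic α (H j) hL inferInstance ?_)
    rw [h4 j]
    exact hp

/-- The action of the integral group ring on the Jacobian. -/
noncomputable def ringAct {X : D.V} {G : Type} [Group G] (α : D.Act X G) :
    MonoidAlgebra ℤ G →ₐ[ℤ] End (D.jac X) :=
  MonoidAlgebra.lift ℤ (End (D.jac X)) G (D.act α)

open Classical in
lemma ringAct_nrm {X : D.V} {G : Type} [Group G] [Fintype G] (α : D.Act X G) (H : Subgroup G) :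
    (ringAct α (nrm H) : D.jac X ⟶ D.jac X) = D.norm α H := by
  unfold nrm norm
  rw [map_sum]
  refine Finset.sum_congr rfl fun g _ => ?_
  simp [ringAct]

/-- The bound for curves with a group action. -/
def actBound (g : ℕ) : ℕ := (2 * (2 ^ (84 * g) * (84 * g))) ^ (84 * g)

lemma computable_pow : Computable₂ fun a b : ℕ => a ^ b := by
  have h1 : Computable fun x : ℕ × ℕ =>
      (Nat.rec 1 (fun _ r => r * x.1) x.2 : ℕ) := by
    refine Computable.nat_rec (f := fun x : ℕ × ℕ => x.2) (g := fun _ => 1)
      (h := fun x y => y.2 * x.1) Computable.snd (Computable.const 1) ?_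
    exact ((Primrec.nat_mul).to_comp.comp (Computable.snd.comp Computable.snd)
      (Computable.fst.comp Computable.fst)).to₂
  refine h1.of_eq fun x => ?_
  induction x.2 with
  | zero => rfl
  | succ n ih =>
    change _ * x.1 = x.1 ^ (n + 1)
    rw [pow_succ]
    exact congrArg (fun y => y * x.1) ih

lemma computable_actBound : Computable actBound := by
  have hmul : Computable₂ fun a b : ℕ => a * b := (Primrec.nat_mul).to_comp
  have h1 : Computable fun g : ℕ => 84 * g := hmul.comp (Computable.const 84) Computable.id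
  have h2 : Computable fun g : ℕ => 2 ^ (84 * g) := computable_pow.comp (Computable.const 2) h1
  exact computable_pow.comp (hmul.comp (Computable.const 2) (hmul.comp h2 h1)) h1

open Classical in
/-- Curves whose Jacobian is generated by the Jacobians of good quotients. -/
theorem dominated_of_generated (h : D.IsArakelov) {b : ℕ} {X : D.V} (hb : D.Over b X)
    (hX : 2 ≤ D.genus X) {G : Type} [Group G] [Fintype G] (α : D.Act X G)
    (hg : D.Generated α) : D.IsDominated b (actBound (D.genus X)) (D.jac X) := by
  have hd : Fintype.card G ≤ 84 * D.genus X :=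
    (h.geometry.card_le α hX).trans (Nat.mul_le_mul_left _ (Nat.sub_le _ _))
  set e := 84 * D.genus X with he
  have he1 : D.genus X ≤ e := by omega
  have he2 : 1 ≤ e := by omega
  have hF : e ≤ actBound (D.genus X) := by
    have h1 : e < 2 ^ e := Nat.lt_two_pow_self
    have h2 : (2 : ℕ) ^ e ≤ (2 * (2 ^ e * e)) ^ e := by
      refine Nat.pow_le_pow_left ?_ e
      have : 1 ≤ 2 ^ e * e := Nat.mul_pos (by positivity) he2
      omega
    unfold actBound
    rw [← he]
    omega
  set s : Finset (Subgroup G) := Finset.univ.filter fun H => D.Good α H with hs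
  have hcard : s.card ≤ 2 ^ e := by
    calc s.card ≤ Fintype.card (Subgroup G) := Finset.card_le_univ s
      _ ≤ Fintype.card (Set G) := Fintype.card_le_of_injective (fun H => (H : Set G))
          SetLike.coe_injective
      _ = 2 ^ Fintype.card G := Fintype.card_set
      _ ≤ 2 ^ e := Nat.pow_le_pow_right (by norm_num) hd
  have hsb : s.card ≤ actBound (D.genus X) := by
    refine hcard.trans ?_
    unfold actBound
    rw [← he]
    refine Nat.pow_le_pow_left ?_ e
    have : 1 ≤ 2 ^ e * e := Nat.mul_pos (by positivity) he2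
    omega
  rcases s.eq_empty_or_nonempty with h0 | h0
  · have h1 : 𝟙 (D.jac X) = 0 := by
      refine hg _ _ fun H hH => ?_
      have : H ∈ s := Finset.mem_filter.2 ⟨Finset.mem_univ _, hH⟩
      rw [h0] at this
      exact absurd this (Finset.notMem_empty _)
    refine ⟨0, 1, Fin.elim0, fun j => Fin.elim0 j, fun j => Fin.elim0 j, Nat.zero_le _, le_rfl,
      he2.trans hF, fun j => Fin.elim0 j, ?_⟩
    rw [h1]
    simp
  · obtain ⟨N, Q, h1, h2, h3⟩ := ring_relation s h0
    have hN : N ≤ actBound (D.genus X) := by
      refine h2.trans ?_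
      unfold actBound
      rw [← he]
      calc (2 * (s.card * Fintype.card G)) ^ Fintype.card G
          ≤ (2 * (2 ^ e * e)) ^ Fintype.card G := Nat.pow_le_pow_left
            (Nat.mul_le_mul_left _ (Nat.mul_le_mul hcard hd)) _
        _ ≤ (2 * (2 ^ e * e)) ^ e := Nat.pow_le_pow_right (by positivity) hd
    set ν : MonoidAlgebra ℤ G := ∑ H ∈ s, nrm H with hν
    set P : Polynomial ℤ := Polynomial.C (N : ℤ) - Polynomial.X * Q with hP
    have h4 : (ringAct α (Polynomial.aeval ν P) : D.jac X ⟶ D.jac X) = 0 := by
      refine hg _ _ fun H hH => ?_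
      have h5 := congrArg (ringAct α) (h3 H (Finset.mem_filter.2 ⟨Finset.mem_univ _, hH⟩))
      rw [map_mul, map_zero] at h5
      have h6 : D.norm α H ≫ (ringAct α (Polynomial.aeval ν P) : D.jac X ⟶ D.jac X) = 0 := by
        rw [← ringAct_nrm]
        exact h5
      rw [← h.geometry.push_pull, Category.assoc] at h6
      refine h.height.torsion _ _ _ _ (h.geometry.deg_pos (D.proj α H)) ?_
      have h7 : (D.pull (D.proj α H) ≫ D.push (D.proj α H)) ≫ D.pull (D.proj α H) ≫
          (ringAct α (Polynomial.aeval ν P) : D.jac X ⟶ D.jac X) = 0 := by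
        rw [Category.assoc, h6, Limits.comp_zero]
      rw [h.geometry.pull_push, Preadditive.nsmul_comp, Category.id_comp] at h7
      exact h7
    have h5 : (N • 𝟙 (D.jac X) : D.jac X ⟶ D.jac X) =
        (ringAct α (Polynomial.aeval ν Q) : D.jac X ⟶ D.jac X) ≫
          ∑ H ∈ s, D.push (D.proj α H) ≫ D.pull (D.proj α H) := by
      have h6 : ringAct α (Polynomial.aeval ν P) =
          (N : End (D.jac X)) - ringAct α ν * ringAct α (Polynomial.aeval ν Q) := by
        rw [hP, map_sub, map_mul, Polynomial.aeval_X, Polynomial.aeval_C, map_sub, map_mul]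
        simp
      have h7 : (N : End (D.jac X)) = ringAct α ν * ringAct α (Polynomial.aeval ν Q) := by
        have h8 : ringAct α (Polynomial.aeval ν P) = 0 := h4
        rw [h6] at h8
        exact sub_eq_zero.1 h8
      have h8 : (ringAct α ν : D.jac X ⟶ D.jac X) =
          ∑ H ∈ s, D.push (D.proj α H) ≫ D.pull (D.proj α H) := by
        rw [hν, map_sum]
        refine Finset.sum_congr rfl fun H _ => ?_
        rw [h.geometry.push_pull]
        exact ringAct_nrm α H
      have h9 : (N • 𝟙 (D.jac X) : D.jac X ⟶ D.jac X) = (N : End (D.jac X)) := by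
        exact nsmul_one (A := End (D.jac X)) N
      rw [h9, h7, ← h8]
      rfl
    let i := s.equivFin
    refine ⟨s.card, N, fun k => D.jac (D.quo α (i.symm k).1),
      fun k => (ringAct α (Polynomial.aeval ν Q) : D.jac X ⟶ D.jac X) ≫
        D.push (D.proj α (i.symm k).1),
      fun k => D.pull (D.proj α (i.symm k).1), hsb, h1, hN, fun k => ?_, ?_⟩
    · exact h.geometry.basic α _ b _ hb (he1.trans hF)
        (Finset.mem_filter.1 (i.symm k).2).2
    · rw [h5, Preadditive.comp_sum, ← Finset.sum_coe_sort s, ← Equiv.sum_comp i.symm]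
      exact Finset.sum_congr rfl fun k _ => Category.assoc _ _ _

lemma IsDominated.mono (h : D.IsArakelov) {b m m' : ℕ} (hm : m ≤ m') {A : 𝒜}
    (hA : D.IsDominated b m A) : D.IsDominated b m' A := by
  obtain ⟨s, n, B, u, v, hs, hn, hnm, hb, huv⟩ := hA
  exact ⟨s, n, B, u, v, hs.trans hm, hn, hnm.trans hm,
    fun j => h.shafarevich.mono _ _ _ _ hm (hb j), huv⟩

/-- Effective small points. -/
theorem main (h : D.IsArakelov) :
    (∃ c : ℕ × ℕ → ℕ, Computable c ∧ ∀ (b m : ℕ) (X : D.V), 2 ≤ D.genus X →
      D.IsDominated b m (D.jac X) → D.HasSmallPoints X (c (b, m))) ∧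
    ∃ c : ℕ × ℕ → ℕ, Computable c ∧ ∀ (b : ℕ) (X : D.V) (G : Type) [Group G] [Fintype G]
      (α : D.Act X G), D.Over b X → 2 ≤ D.genus X → D.Generated α →
        D.HasSmallPoints X (c (b, D.genus X)) ∧
          ∀ (Y : D.V), D.Mor X Y → 2 ≤ D.genus Y → D.HasSmallPoints Y (c (b, D.genus X)) := by
  obtain ⟨B, hB, hb⟩ := h.shafarevich.bound
  refine ⟨⟨const B, computable_const hB, fun b m X hX hd => hd.small h hb hX⟩,
    fun x => const B (x.1, actBound x.2 * x.2), ?_, ?_⟩
  · have hmul : Computable₂ fun a b : ℕ => a * b := (Primrec.nat_mul).to_comp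
    exact (computable_const hB).comp (Computable.fst.pair
      (hmul.comp (computable_actBound.comp Computable.snd) Computable.snd))
  · intro b X G _ _ α hO hX hG
    have h1 := dominated_of_generated h hO hX α hG
    have h2 : actBound (D.genus X) ≤ actBound (D.genus X) * D.genus X :=
      Nat.le_mul_of_pos_right _ (by omega)
    refine ⟨(h1.mono h h2).small h hb hX, fun Y f hY => (h1.image h f hY).small h hb hY⟩

end Curves

end Pool.Agent.Zk51.SP
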