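import Pool.Agent.Zk51.SP.Defs

/-!
# Small points on curves dominated by known curves: proofs
-/

set_option autoImplicit false

open CategoryTheory

namespace Pool.Agent.Zk51.SP

universe v u

variable {𝒜 : Type u} [Category.{v} 𝒜] [Preadditive 𝒜]

namespace Curves

variable {D : Curves 𝒜}

/-- The Faltings height of a direct summand up to a factor. -/
theorem IsHeight.summand (h : D.IsHeight) {A B : 𝒜} (u : A ⟶ B) (v : B ⟶ A) {n : ℕ} (hn : 1 ≤ n)
    (huv : u ≫ v = n • 𝟙 A) :
    D.hF A ≤ D.hF B + D.dim B * Real.log n + 3 * D.dim B := by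
  have hw : (n • 𝟙 B - v ≫ u) ≫ (n • 𝟙 B - v ≫ u) = n • (n • 𝟙 B - v ≫ u) := by
    have h1 : (v ≫ u) ≫ v ≫ u = n • (v ≫ u) := by
      rw [Category.assoc, ← Category.assoc u v u, huv, Preadditive.nsmul_comp, Category.id_comp,
        Preadditive.comp_nsmul]
    rw [Preadditive.sub_comp, Preadditive.comp_sub, Preadditive.comp_sub, h1]
    simp only [Preadditive.nsmul_comp, Preadditive.comp_nsmul, Category.id_comp, Category.comp_id]
    rw [sub_self, sub_zero, smul_sub]
  obtain ⟨A', p, i, hpi, hip⟩ := h.image B _ n hn hw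
  have hup : u ≫ p = 0 := by
    refine h.torsion _ _ _ n hn ?_
    have h1 : u ≫ p ≫ i = 0 := by
      rw [hpi, Preadditive.comp_sub, Preadditive.comp_nsmul, Category.comp_id, ← Category.assoc,
        huv, Preadditive.nsmul_comp, Category.id_comp, sub_self]
    have h2 : u ≫ p ≫ i ≫ p = 0 := by
      rw [← Category.assoc p i p, ← Category.assoc u, h1, Limits.zero_comp]
    rw [hip, Preadditive.comp_nsmul, Category.comp_id, Preadditive.comp_nsmul] at h2
    exact h2
  have hiv : i ≫ v = 0 := by
    refine h.torsion _ _ _ n hn ?_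
    have h1 : (p ≫ i) ≫ v = 0 := by
      rw [hpi, Preadditive.sub_comp, Preadditive.nsmul_comp, Category.id_comp, Category.assoc,
        huv, Preadditive.comp_nsmul, Category.comp_id, sub_self]
    have h2 : (i ≫ p) ≫ i ≫ v = 0 := by
      rw [Category.assoc, ← Category.assoc p i v, h1, Limits.comp_zero]
    rw [hip, Preadditive.nsmul_comp, Category.id_comp] at h2
    exact h2
  obtain ⟨P, ι, π, hP, hF, hd⟩ := h.product Bool (fun b => cond b A A')
  have e1 : ι true ≫ π true = 𝟙 A := hP.one true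
  have e2 : ι false ≫ π false = 𝟙 A' := hP.one false
  have e3 : ι true ≫ π false = 0 := hP.zero true false (by simp)
  have e4 : ι false ≫ π true = 0 := hP.zero false true (by simp)
  have e5 : π true ≫ ι true + π false ≫ ι false = 𝟙 P := by
    have := hP.total
    rw [Fintype.sum_bool] at this
    exact this
  let f : P ⟶ B := π true ≫ (u : cond true A A' ⟶ B) + π false ≫ (i : cond false A A' ⟶ B)
  let g : B ⟶ P := (v : B ⟶ cond true A A') ≫ ι true + (p : B ⟶ cond false A A') ≫ ι false
  have hgf : g ≫ f = n • 𝟙 B := by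
    have h1 : g ≫ f = v ≫ u + p ≫ i := by
      simp only [f, g, Preadditive.add_comp, Preadditive.comp_add, Category.assoc]
      rw [← Category.assoc (ι true) (π true), ← Category.assoc (ι true) (π false),
        ← Category.assoc (ι false) (π true), ← Category.assoc (ι false) (π false), e1, e2, e3, e4]
      simp only [Limits.zero_comp, Limits.comp_zero, add_zero, zero_add]
      congr 1
      · congr 1
        exact Category.id_comp u
      · congr 1
        exact Category.id_comp i
    rw [h1, hpi]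
    abel
  have hfg : f ≫ g = n • 𝟙 P := by
    have a1 : (u : cond true A A' ⟶ B) ≫ (v : B ⟶ cond true A A') = n • 𝟙 A := huv
    have a2 : (i : cond false A A' ⟶ B) ≫ (p : B ⟶ cond false A A') = n • 𝟙 A' := hip
    have a3 : (u : cond true A A' ⟶ B) ≫ (p : B ⟶ cond false A A') = 0 := hup
    have a4 : (i : cond false A A' ⟶ B) ≫ (v : B ⟶ cond true A A') = 0 := hiv
    simp only [f, g, Preadditive.add_comp, Preadditive.comp_add, Category.assoc]
    rw [← Category.assoc u v, ← Category.assoc u p, ← Category.assoc i v, ← Category.assoc i p]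
    rw [a1, a2, a3, a4]
    simp only [Limits.zero_comp, Limits.comp_zero, add_zero, zero_add]
    rw [← e5, smul_add]
    congr 1
    · rw [← Preadditive.comp_nsmul]
      congr 1
      rw [Preadditive.nsmul_comp]
      congr 1
      exact Category.id_comp _
    · rw [← Preadditive.comp_nsmul]
      congr 1
      rw [Preadditive.nsmul_comp]
      congr 1
      exact Category.id_comp _
  obtain ⟨hdim, hle⟩ := h.isogeny P B f g n hn hfg hgf
  rw [Fintype.sum_bool] at hF hd
  have hF' : D.hF P = D.hF A + D.hF A' := hF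
  have hd' : D.dim P = D.dim A + D.dim A' := hd
  have hb := h.bost A'
  have hA' : (D.dim A' : ℝ) ≤ D.dim B := by
    have : D.dim A' ≤ D.dim B := by omega
    exact_mod_cast this
  rw [hF', hdim] at hle
  linarith

/-- The bound for the Faltings height of `A`. -/
theorem IsDominated.bound (h : D.IsHeight) {b m : ℕ} {c : ℕ}
    (hB : ∀ A, D.Basic b m A → D.hF A ≤ c ∧ D.dim A ≤ m) {A : 𝒜} (hA : D.IsDominated b m A) :
    D.hF A ≤ ((m * c + m * m * m + 3 * (m * m) : ℕ) : ℝ) := by
  obtain ⟨s, n, B, u, v, hs, hn, hnm, hb, huv⟩ := hA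
  obtain ⟨P, ι, π, hP, hF, hd⟩ := h.product (Fin s) B
  have h1 : (∑ j, u j ≫ ι j) ≫ (∑ k, π k ≫ v k) = n • 𝟙 A := by
    rw [← huv, Preadditive.sum_comp]
    refine Finset.sum_congr rfl fun j _ => ?_
    rw [Preadditive.comp_sum, Finset.sum_eq_single j]
    · rw [Category.assoc, ← Category.assoc (ι j), hP.one, Category.id_comp]
    · intro k _ hk
      rw [Category.assoc, ← Category.assoc (ι j), hP.zero j k (Ne.symm hk), Limits.zero_comp,
        Limits.comp_zero]
    · intro hj
      exact absurd (Finset.mem_univ j) hj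
  have h2 := h.summand _ _ hn h1
  have h3 : D.hF P ≤ (m * c : ℕ) := by
    rw [hF]
    calc ∑ j, D.hF (B j) ≤ ∑ _j : Fin s, (c : ℝ) := Finset.sum_le_sum fun j _ => (hB _ (hb j)).1
      _ = (s * c : ℕ) := by simp
      _ ≤ (m * c : ℕ) := by exact_mod_cast Nat.mul_le_mul_right c hs
  have h4 : D.dim P ≤ m * m := by
    rw [hd]
    calc ∑ j, D.dim (B j) ≤ ∑ _j : Fin s, m := Finset.sum_le_sum fun j _ => (hB _ (hb j)).2
      _ = s * m := by simp
      _ ≤ m * m := Nat.mul_le_mul_right m hs
  have h5 : Real.log n ≤ m := by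
    have h6 : Real.log n ≤ n := by
      have := Real.log_le_sub_one_of_pos (x := (n : ℝ)) (by exact_mod_cast hn)
      linarith
    have h7 : (n : ℝ) ≤ m := by exact_mod_cast hnm
    linarith
  have h6 : (0 : ℝ) ≤ Real.log n := Real.log_natCast_nonneg n
  have h7 : (D.dim P : ℝ) ≤ (m * m : ℕ) := by exact_mod_cast h4
  have h8 : (D.dim P : ℝ) * Real.log n ≤ (m * m : ℕ) * m :=
    mul_le_mul h7 h5 h6 (by positivity)
  push_cast at *
  nlinarith

/-- The constant. -/
def const (B : ℕ × ℕ → ℕ) (x : ℕ × ℕ) : ℕ :=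
  6 * (x.2 * B x + x.2 * x.2 * x.2 + 3 * (x.2 * x.2)) + 19

theorem computable_const {B : ℕ × ℕ → ℕ} (hB : Computable B) : Computable (const B) := by
  have hm : Computable fun x : ℕ × ℕ => x.2 := Computable.snd
  have hmul : Computable₂ fun a b : ℕ => a * b := (Primrec.nat_mul).to_comp
  have hadd : Computable₂ fun a b : ℕ => a + b := (Primrec.nat_add).to_comp
  have hmm : Computable fun x : ℕ × ℕ => x.2 * x.2 := hmul.comp hm hm
  unfold const
  exact hadd.comp (hmul.comp (Computable.const 6) (hadd.comp (hadd.comp (hmul.comp hm hB)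
    (hmul.comp hmm hm)) (hmul.comp (Computable.const 3) hmm))) (Computable.const 19)

theorem IsDominated.small (h : D.IsArakelov) {b m : ℕ} {B : ℕ × ℕ → ℕ}
    (hB : ∀ (b m : ℕ) (A : 𝒜), D.Basic b m A → D.hF A ≤ B (b, m)) {X : D.V}
    (hX : 2 ≤ D.genus X) (hd : D.IsDominated b m (D.jac X)) :
    D.HasSmallPoints X (const B (b, m)) := by
  refine (h.zhang X hX).mono fun x hx => ?_
  have h1 := hd.bound h.height (c := B (b, m))
    fun A hA => ⟨hB b m A hA, h.shafarevich.dim_le b m A hA⟩
  have h2 : max (D.hF (D.jac X)) 0 ≤ ((m * B (b, m) + m * m * m + 3 * (m * m) : ℕ) : ℝ) :=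
    max_le h1 (Nat.cast_nonneg _)
  have hx' : D.h X x ≤ 6 * max (D.hF (D.jac X)) 0 + 19 := hx
  change D.h X x ≤ ((6 * (m * B (b, m) + m * m * m + 3 * (m * m)) + 19 : ℕ) : ℝ)
  push_cast at *
  linarith

/-- Jacobians of images. -/
theorem IsDominated.image (h : D.IsArakelov) {b m : ℕ} {X' X : D.V} (f : D.Mor X' X)
    (hX : 2 ≤ D.genus X) (hd : D.IsDominated b m (D.jac X')) :
    D.IsDominated b (m * D.genus X') (D.jac X) := by
  obtain ⟨s, n, B, u, v, hs, hn, hnm, hb, huv⟩ := hd
  have h1 := h.geometry.deg_pos f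
  have h2 := h.geometry.deg_le f hX
  have h3 : D.deg f ≤ D.genus X' := by
    have : D.deg f * 1 ≤ D.deg f * (D.genus X - 1) := Nat.mul_le_mul_left _ (by omega)
    omega
  have h4 : 1 ≤ D.genus X' := le_trans h1 h3
  have h5 : m ≤ m * D.genus X' := Nat.le_mul_of_pos_right m h4
  refine ⟨s, n * D.deg f, B, fun j => D.pull f ≫ u j, fun j => v j ≫ D.push f, hs.trans h5,
    Nat.mul_pos hn h1, Nat.mul_le_mul hnm h3, fun j => h.shafarevich.mono _ _ _ _ h5 (hb j), ?_⟩
  have h6 : ∑ j, (D.pull f ≫ u j) ≫ v j ≫ D.push f =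
      D.pull f ≫ (∑ j, u j ≫ v j) ≫ D.push f := by
    rw [Preadditive.sum_comp, Preadditive.comp_sum]
    exact Finset.sum_congr rfl fun j _ => by simp only [Category.assoc]
  rw [h6, huv, Preadditive.nsmul_comp, Category.id_comp, Preadditive.comp_nsmul,
    h.geometry.pull_push, ← mul_smul]

open Classical in
/-- The relation in the endomorphism ring of the Jacobian. -/
theorem relation {X : D.V} {G : Type} [Group G] [Fintype G] (α : D.Act X G)
    {ι : Type} [Fintype ι] {H : ι → Subgroup G} {n : ι → ℤ} {N : ℕ} {t : ℤ}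
    (hr : IsRelation H n N t) :
    ∑ j, n j • D.norm α (H j) = N • 𝟙 (D.jac X) + t • D.norm α ⊤ := by
  have h1 : ∀ K : Subgroup G, D.norm α K =
      ∑ g : G, (if g ∈ K then (1 : ℤ) else 0) • (D.act α g : D.jac X ⟶ D.jac X) := by
    intro K
    unfold norm
    rw [Finset.sum_filter]
    refine Finset.sum_congr rfl fun g _ => ?_
    split_ifs
    · rw [one_smul]
    · rw [zero_smul]
  have h2 : ∑ j, n j • D.norm α (H j) =
      ∑ g : G, (∑ j with g ∈ H j, n j) • (D.act α g : D.jac X ⟶ D.jac X) := by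
    simp only [h1, Finset.smul_sum, smul_smul]
    rw [Finset.sum_comm]
    refine Finset.sum_congr rfl fun g _ => ?_
    rw [← Finset.sum_smul, Finset.sum_filter]
    congr 1
    refine Finset.sum_congr rfl fun j _ => ?_
    split_ifs <;> simp
  have h3 : D.norm α ⊤ = ∑ g : G, (D.act α g : D.jac X ⟶ D.jac X) := by
    unfold norm
    refine Finset.sum_congr ?_ fun _ _ => rfl
    ext g
    simp
  rw [h2, h3, Finset.smul_sum]
  rw [← Finset.add_sum_erase Finset.univ _ (Finset.mem_univ (1 : G)),
    ← Finset.add_sum_erase Finset.univ (fun g => t • (D.act α g : D.jac X ⟶ D.jac X))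
      (Finset.mem_univ (1 : G))]
  have h4 : ∑ j with (1 : G) ∈ H j, n j = N + t := by
    rw [← hr.1]
    refine Finset.sum_congr ?_ fun _ _ => rfl
    ext j
    simp
  have h5 : (D.act α (1 : G) : D.jac X ⟶ D.jac X) = 𝟙 _ := by
    rw [map_one]
    rfl
  rw [h4, h5, add_smul, ← add_assoc]
  congr 1
  · congr 1
    exact natCast_zsmul _ _
  · refine Finset.sum_congr rfl fun g hg => ?_
    rw [hr.2 g (Finset.ne_of_mem_erase hg)]

/-- Jacobians of curves with a relation between good quotients. -/
theorem dominated_of_relation (h : D.IsArakelov) {b m : ℕ} {X : D.V} (hb : D.Over b X)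
    (hm : D.genus X ≤ m) {G : Type} [Group G] [Fintype G] (α : D.Act X G)
    (h0 : D.genus (D.quo α ⊤) = 0) {ι : Type} [Fintype ι] (hι : Fintype.card ι ≤ m)
    {H : ι → Subgroup G} {n : ι → ℤ} {N : ℕ} {t : ℤ} (hr : IsRelation H n N t) (hN : 1 ≤ N)
    (hNm : N ≤ m) (hg : ∀ j, D.Good α (H j)) : D.IsDominated b m (D.jac X) := by
  classical
  have h1 := relation α hr
  have h2 : D.norm α ⊤ = 0 := by
    rw [← h.geometry.push_pull α ⊤]
    have h3 := h.geometry.rational _ h0
    have h4 : D.push (D.proj α ⊤) = 0 := by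
      rw [← Category.comp_id (D.push (D.proj α ⊤)), h3, Limits.comp_zero]
    rw [h4, Limits.zero_comp]
  rw [h2, smul_zero, add_zero] at h1
  let e := Fintype.equivFin ι
  refine ⟨Fintype.card ι, N, fun k => D.jac (D.quo α (H (e.symm k))),
    fun k => D.push (D.proj α (H (e.symm k))),
    fun k => n (e.symm k) • D.pull (D.proj α (H (e.symm k))), hι, hN, hNm,
    fun k => h.geometry.basic α _ b m hb hm (hg _), ?_⟩
  rw [← h1, ← Equiv.sum_comp e.symm]
  refine Finset.sum_congr rfl fun k _ => ?_
  rw [Preadditive.comp_zsmul, h.geometry.push_pull]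

end Curves

end Pool.Agent.Zk51.SP
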