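import Mathlib

/-!
# Symmetric integral matrices: a polynomial relation with a bounded constant term
-/

set_option autoImplicit false

open Polynomial Matrix

namespace Pool.Agent.Zk51.SP

variable {n : Type} [Fintype n] [DecidableEq n]

/-- The coefficients of the characteristic polynomial are bounded in terms of the row sums. -/
theorem charpoly_coeff_bound (A : Matrix n n ℤ) {R : ℕ} (hR : 1 ≤ R)
    (hA : ∀ i, ∑ j, |A i j| ≤ (R : ℤ)) (k : ℕ) :
    |A.charpoly.coeff k| ≤ (((2 * R) ^ Fintype.card n : ℕ) : ℤ) := by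
  have h1 : ∀ z ∈ (A.charpoly.map (Int.castRingHom ℂ)).roots, ‖z‖ ≤ (R : ℝ) := by
    intro z hz
    have h2 := (Polynomial.mem_roots'.1 hz).2
    rw [← Matrix.charpoly_map] at h2
    have h3 : Module.End.HasEigenvalue (Matrix.toLin' (A.map (Int.castRingHom ℂ))) z := by
      rw [Module.End.hasEigenvalue_iff_isRoot_charpoly, Matrix.charpoly_toLin']
      exact h2
    obtain ⟨i, hi⟩ := eigenvalue_mem_ball h3
    rw [Metric.mem_closedBall, dist_eq_norm] at hi
    have h4 : ∀ j, ‖(A.map (Int.castRingHom ℂ)) i j‖ = ((|A i j| : ℤ) : ℝ) := by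
      intro j
      rw [Matrix.map_apply, Int.coe_castRingHom, Complex.norm_intCast, Int.cast_abs]
    have h5 : ‖z‖ ≤ ‖z - (A.map (Int.castRingHom ℂ)) i i‖ + ‖(A.map (Int.castRingHom ℂ)) i i‖ := by
      have := norm_add_le (z - (A.map (Int.castRingHom ℂ)) i i) ((A.map (Int.castRingHom ℂ)) i i)
      rwa [sub_add_cancel] at this
    have h6 : ‖z‖ ≤ ∑ j, ‖(A.map (Int.castRingHom ℂ)) i j‖ := by
      rw [← Finset.add_sum_erase Finset.univ _ (Finset.mem_univ i)]
      linarith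
    have h7 : ∑ j, ‖(A.map (Int.castRingHom ℂ)) i j‖ = ((∑ j, |A i j| : ℤ) : ℝ) := by
      rw [Int.cast_sum]
      exact Finset.sum_congr rfl fun j _ => h4 j
    rw [h7] at h6
    have h8 : ((∑ j, |A i j| : ℤ) : ℝ) ≤ ((R : ℤ) : ℝ) := by exact_mod_cast hA i
    exact h6.trans (by simpa using h8)
  have h2 := Polynomial.coeff_bdd_of_roots_le (B := (R : ℝ)) (d := Fintype.card n)
    (Int.castRingHom ℂ) (A.charpoly_monic) (IsAlgClosed.splits _)
    (le_of_eq (A.charpoly_natDegree_eq_dim)) h1 k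
  rw [Polynomial.coeff_map, Int.coe_castRingHom, Complex.norm_intCast, max_eq_left
    (by exact_mod_cast hR)] at h2
  have h3 : ((Fintype.card n).choose (Fintype.card n / 2) : ℝ) ≤ 2 ^ Fintype.card n := by
    exact_mod_cast Nat.choose_le_two_pow _ _
  have h4 : ((|A.charpoly.coeff k| : ℤ) : ℝ) ≤ (((2 * R) ^ Fintype.card n : ℕ) : ℝ) := by
    rw [Int.cast_abs]
    refine h2.trans ?_
    push_cast
    rw [mul_pow, mul_comm ((2 : ℝ) ^ _)]
    exact mul_le_mul_of_nonneg_left h3 (by positivity)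
  exact_mod_cast h4

lemma eq_zero_of_tmul {m k : Type} [Fintype m] {C : Matrix m k ℤ} (h : Cᵀ * C = 0) : C = 0 := by
  ext i j
  have h1 : (Cᵀ * C) j j = 0 := by rw [h]; rfl
  rw [Matrix.mul_apply] at h1
  have h2 := (Finset.sum_eq_zero_iff_of_nonneg (fun l _ => by
    rw [Matrix.transpose_apply]
    exact mul_self_nonneg _)).1 h1 i (Finset.mem_univ i)
  rw [Matrix.transpose_apply] at h2
  exact mul_self_eq_zero.1 h2

/-- Symmetric matrices are not nilpotent. -/
lemma mul_eq_zero_of_pow {A : Matrix n n ℤ} (hA : Aᵀ = A) {B : Matrix n n ℤ} :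
    ∀ k : ℕ, A ^ k * B = 0 → A * B = 0 := by
  intro k
  induction k with
  | zero =>
    intro h
    rw [pow_zero, one_mul] at h
    rw [h, mul_zero]
  | succ k ih =>
    intro h
    rcases k with _ | k
    · simpa using h
    · refine ih (eq_zero_of_tmul ?_)
      have h1 : (A ^ (k + 1) * B)ᵀ = Bᵀ * A ^ (k + 1) := by
        rw [Matrix.transpose_mul, Matrix.transpose_pow, hA]
      rw [h1, Matrix.mul_assoc, ← Matrix.mul_assoc (A ^ (k + 1)), ← pow_add,
        show k + 1 + (k + 1) = k + (k + 1 + 1) by ring, pow_add, Matrix.mul_assoc (A ^ k), h,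
        Matrix.mul_zero, Matrix.mul_zero]

/-- A polynomial relation with a bounded constant term. -/
theorem exists_poly (A : Matrix n n ℤ) (hs : Aᵀ = A) {R : ℕ} (hR : 1 ≤ R)
    (hA : ∀ i, ∑ j, |A i j| ≤ (R : ℤ)) :
    ∃ (N : ℕ) (Q : ℤ[X]), 1 ≤ N ∧ N ≤ (2 * R) ^ Fintype.card n ∧
      A * aeval A (C (N : ℤ) - X * Q) = 0 := by
  have hP : A.charpoly ≠ 0 := (A.charpoly_monic).ne_zero
  obtain ⟨P, hPP⟩ := X_pow_dvd_iff.2 fun d hd =>
    coeff_eq_zero_of_lt_natTrailingDegree (p := A.charpoly) hd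
  have h0 : P.coeff 0 = A.charpoly.coeff A.charpoly.natTrailingDegree := by
    conv_rhs => rw [hPP]
    have := Polynomial.coeff_X_pow_mul P A.charpoly.natTrailingDegree 0
    rw [zero_add] at this
    rw [← this, ← hPP]
  have h1 : P.coeff 0 ≠ 0 := by
    rw [h0]
    exact trailingCoeff_nonzero_iff_nonzero.2 hP
  have h2 : A * aeval A P = 0 := by
    refine mul_eq_zero_of_pow hs A.charpoly.natTrailingDegree ?_
    have h3 := Matrix.aeval_self_charpoly A
    rw [hPP, map_mul, map_pow, aeval_X] at h3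
    exact h3
  have h3 : P = C (P.coeff 0) + X * P.divX := by
    conv_lhs => rw [← Polynomial.divX_mul_X_add P]
    ring
  refine ⟨(P.coeff 0).natAbs, -(C (P.coeff 0).sign * P.divX), Int.natAbs_pos.2 h1, ?_, ?_⟩
  · have h4 := charpoly_coeff_bound A hR hA A.charpoly.natTrailingDegree
    rw [← h0, Int.abs_eq_natAbs] at h4
    exact_mod_cast h4
  · have h4 : C (((P.coeff 0).natAbs : ℕ) : ℤ) - X * -(C (P.coeff 0).sign * P.divX) =
        C (P.coeff 0).sign * P := by
      conv_rhs => rw [h3]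
      have h5 : (((P.coeff 0).natAbs : ℕ) : ℤ) = (P.coeff 0).sign * P.coeff 0 := by
        rw [Int.sign_mul_self]
      rw [h5, map_mul]
      simp only [coeff_add, coeff_C_zero, mul_coeff_zero, coeff_X_zero, zero_mul, add_zero]
      ring
    rw [h4, map_mul, ← Matrix.mul_assoc]
    have h6 : A * aeval A (C (P.coeff 0).sign : ℤ[X]) = aeval A (C (P.coeff 0).sign : ℤ[X]) * A := by
      rw [aeval_C]
      exact (Algebra.commutes _ _).symm
    rw [h6, Matrix.mul_assoc, h2, Matrix.mul_zero]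

omit [DecidableEq n] in
/-- Sums of positive semidefinite matrices. -/
theorem mul_eq_zero_of_sum {ι : Type} (s : Finset ι) (A : ι → Matrix n n ℤ) (c : ι → ℕ)
    (hc : ∀ j, 1 ≤ c j) (hs : ∀ j, (A j)ᵀ = A j) (hq : ∀ j, A j * A j = c j • A j)
    {B : Matrix n n ℤ} (h : (∑ j ∈ s, A j) * B = 0) : ∀ j ∈ s, A j * B = 0 := by
  have h1 : ∀ j, (A j * B)ᵀ * (A j * B) = c j • (Bᵀ * (A j * B)) := by
    intro j
    rw [Matrix.transpose_mul, hs, Matrix.mul_assoc, ← Matrix.mul_assoc (A j), hq,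
      Matrix.smul_mul, Matrix.mul_smul]
  have h2 : ∀ j i, 0 ≤ (Bᵀ * (A j * B)) i i := by
    intro j i
    have h3 : 0 ≤ ((A j * B)ᵀ * (A j * B)) i i := by
      rw [Matrix.mul_apply]
      exact Finset.sum_nonneg fun l _ => by
        rw [Matrix.transpose_apply]
        exact mul_self_nonneg _
    rw [h1, Matrix.smul_apply, nsmul_eq_mul] at h3
    have h4 : (0 : ℤ) < (c j : ℤ) := by exact_mod_cast hc j
    exact nonneg_of_mul_nonneg_right h3 h4
  have h3 : ∀ i, ∑ j ∈ s, (Bᵀ * (A j * B)) i i = 0 := by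
    intro i
    have h4 : Bᵀ * ((∑ j ∈ s, A j) * B) = ∑ j ∈ s, Bᵀ * (A j * B) := by
      rw [Finset.sum_mul, Finset.mul_sum]
    have h5 := congrFun (congrFun h4 i) i
    rw [h, Matrix.mul_zero, Matrix.sum_apply] at h5
    exact h5.symm
  intro j hj
  ext l i
  have h4 : (Bᵀ * (A j * B)) i i = 0 :=
    (Finset.sum_eq_zero_iff_of_nonneg (fun j _ => h2 j i)).1 (h3 i) j hj
  have h5 : ((A j * B)ᵀ * (A j * B)) i i = 0 := by
    rw [h1, Matrix.smul_apply, h4, smul_zero]
  rw [Matrix.mul_apply] at h5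
  have h6 := (Finset.sum_eq_zero_iff_of_nonneg (fun l _ => by
    rw [Matrix.transpose_apply]
    exact mul_self_nonneg _)).1 h5 l (Finset.mem_univ l)
  rw [Matrix.transpose_apply] at h6
  exact mul_self_eq_zero.1 h6

end Pool.Agent.Zk51.SP
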