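import Pool.Agent.Zk51.SP.Final

/-!
# A representation theoretic criterion
-/

set_option autoImplicit false

open CategoryTheory

namespace Pool.Agent.Zk51.SP

universe v u

variable {𝒜 : Type u} [Category.{v} 𝒜] [Preadditive 𝒜]

namespace Curves

variable {D : Curves 𝒜}

lemma act_comp {X : D.V} {G : Type} [Group G] (α : D.Act X G) (a b : G) :
    (D.act α (a * b) : D.jac X ⟶ D.jac X) =
      (D.act α b : D.jac X ⟶ D.jac X) ≫ (D.act α a : D.jac X ⟶ D.jac X) := by
  rw [map_mul]
  rfl

open Classical in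
/-- Norms of conjugate subgroups. -/
lemma norm_act {X : D.V} {G : Type} [Group G] [Fintype G] (α : D.Act X G) (H : Subgroup G)
    (g : G) : D.norm α H ≫ (D.act α g⁻¹ : D.jac X ⟶ D.jac X) =
      (D.act α g⁻¹ : D.jac X ⟶ D.jac X) ≫ D.norm α (H.map (MulAut.conj g⁻¹).toMonoidHom) := by
  unfold norm
  rw [Preadditive.sum_comp, Preadditive.comp_sum]
  refine Finset.sum_bij' (fun h _ => g⁻¹ * h * g) (fun h _ => g * h * g⁻¹) ?_ ?_ ?_ ?_ ?_
  · intro h hh
    simp only [Finset.mem_filter, Finset.mem_univ, true_and] at hh ⊢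
    exact ⟨h, hh, by simp⟩
  · intro h hh
    simp only [Finset.mem_filter, Finset.mem_univ, true_and] at hh ⊢
    obtain ⟨k, hk, rfl⟩ := hh
    have : g * ((MulAut.conj g⁻¹).toMonoidHom k) * g⁻¹ = k := by
      simp [mul_assoc]
    rw [this]
    exact hk
  · intro h _
    group
  · intro h _
    group
  · intro h _
    rw [← act_comp, ← act_comp]
    congr 1
    group

/-- The subgroup of the homomorphisms which are zero on the good quotients. -/
def bad {X : D.V} {G : Type} [Group G] (α : D.Act X G) (A : 𝒜) : AddSubgroup (D.jac X ⟶ A) where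
  carrier := {f | ∀ H, D.Good α H → D.pull (D.proj α H) ≫ f = 0}
  zero_mem' := fun H _ => Limits.comp_zero
  add_mem' := by
    intro a b ha hb H hH
    rw [Preadditive.comp_add, ha H hH, hb H hH, add_zero]
  neg_mem' := by
    intro a ha H hH
    rw [Preadditive.comp_neg, ha H hH, neg_zero]

lemma norm_of_bad (h : D.IsArakelov) {X : D.V} {G : Type} [Group G] [Fintype G] (α : D.Act X G)
    {A : 𝒜} {f : D.jac X ⟶ A} (hf : f ∈ bad α A) {H : Subgroup G} (hH : D.Good α H) :
    D.norm α H ≫ f = 0 := by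
  rw [← h.geometry.push_pull, Category.assoc, hf H hH, Limits.comp_zero]

lemma pull_of_norm (h : D.IsArakelov) {X : D.V} {G : Type} [Group G] [Fintype G] (α : D.Act X G)
    {A : 𝒜} {f : D.jac X ⟶ A} {H : Subgroup G} (hf : D.norm α H ≫ f = 0) :
    D.pull (D.proj α H) ≫ f = 0 := by
  refine h.height.torsion _ _ _ _ (h.geometry.deg_pos (D.proj α H)) ?_
  have h7 : (D.pull (D.proj α H) ≫ D.push (D.proj α H)) ≫ D.pull (D.proj α H) ≫ f = 0 := by
    rw [← h.geometry.push_pull, Category.assoc] at hf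
    rw [Category.assoc, hf, Limits.comp_zero]
  rw [h.geometry.pull_push, Preadditive.nsmul_comp, Category.id_comp] at h7
  exact h7

lemma bad_act (h : D.IsArakelov) {X : D.V} {G : Type} [Group G] [Fintype G] (α : D.Act X G)
    {A : 𝒜} {f : D.jac X ⟶ A} (hf : f ∈ bad α A) (g : G) :
    (D.act α g⁻¹ : D.jac X ⟶ D.jac X) ≫ f ∈ bad α A := by
  intro H hH
  refine pull_of_norm h α ?_
  rw [← Category.assoc, norm_act, Category.assoc, norm_of_bad h α hf (h.geometry.conj α H _ hH),
    Limits.comp_zero]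

/-- The action of `G` on the subgroup. -/
def badRep (h : D.IsArakelov) {X : D.V} {G : Type} [Group G] [Fintype G] (α : D.Act X G) (A : 𝒜) :
    G →* AddMonoid.End (bad α A) where
  toFun g :=
    { toFun := fun f => ⟨(D.act α g⁻¹ : D.jac X ⟶ D.jac X) ≫ f.1, bad_act h α f.2 g⟩
      map_zero' := Subtype.ext (by simp)
      map_add' := fun a b => Subtype.ext (by simp) }
  map_one' := by
    ext f
    change (D.act α (1 : G)⁻¹ : D.jac X ⟶ D.jac X) ≫ f.1 = f.1
    rw [inv_one, map_one]
    exact Category.id_comp _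
  map_mul' a b := by
    ext f
    change (D.act α (a * b)⁻¹ : D.jac X ⟶ D.jac X) ≫ f.1 =
      (D.act α a⁻¹ : D.jac X ⟶ D.jac X) ≫ (D.act α b⁻¹ : D.jac X ⟶ D.jac X) ≫ f.1
    rw [mul_inv_rev, act_comp, Category.assoc]

open Classical in
/-- The criterion. -/
theorem generated_of_seesAll (h : D.IsArakelov) {X : D.V} {G : Type} [Group G] [Fintype G]
    (α : D.Act X G) (h0 : D.genus (D.quo α ⊤) = 0) (hs : D.SeesAll α) : D.Generated α := by
  intro A f hf
  by_contra hne
  obtain ⟨H, hH, x, hx, hfix⟩ := hs (bad α A) (badRep h α A)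
    (fun n x hn hx => Subtype.ext (h.height.torsion _ _ _ n hn (by
      have := congrArg Subtype.val hx
      simpa using this))) ⟨⟨f, hf⟩, fun e => hne (congrArg Subtype.val e)⟩
  have h1 : D.norm α H ≫ x.1 = 0 := by
    rcases hH with hH | hH
    · exact norm_of_bad h α x.2 hH
    · rw [hH, norm_top h α h0, Limits.zero_comp]
  have h2 : ∀ g ∈ H, (D.act α g : D.jac X ⟶ D.jac X) ≫ x.1 = x.1 := by
    intro g hg
    have := congrArg Subtype.val (hfix g⁻¹ (H.inv_mem hg))
    change (D.act α g⁻¹⁻¹ : D.jac X ⟶ D.jac X) ≫ x.1 = x.1 at this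
    rwa [inv_inv] at this
  have h3 : D.norm α H ≫ x.1 = (Finset.univ.filter fun g : G => g ∈ H).card • x.1 := by
    unfold norm
    rw [Preadditive.sum_comp, Finset.sum_congr rfl fun g hg => h2 g (Finset.mem_filter.1 hg).2,
      Finset.sum_const]
  rw [h1] at h3
  have h4 : x.1 = 0 := h.height.torsion _ _ _ _
    (Finset.card_pos.2 ⟨(1 : G), by simp [H.one_mem]⟩) h3.symm
  exact hx (Subtype.ext h4)

end Curves

end Pool.Agent.Zk51.SP
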